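import Mathlib
import Pool.Agent.H243.ProjAlg

/-!
MP_71be7b_lc (Q1).  For every `k ≥ 1` the number of isomorphism classes of projective algebras of
plane sets generated by `k` sets is exactly the cardinality of the continuum (also when the `k`
generators are required to be pairwise distinct).
-/

namespace Pool.Agent.Results.MP_71be7b_lc.ContinuumManyForEveryK

open Pool.Agent.H243.ProjAlg

theorem generated_isProjAlg (k : ℕ) : ∀ F ∈ Generated k, IsProjAlg F := by
  rintro _ ⟨S, rfl⟩; exact isProjAlg_gen _

theorem generatedDistinct_isProjAlg (k : ℕ) : ∀ F ∈ GeneratedDistinct k, IsProjAlg F := by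
  rintro _ ⟨S, -, rfl⟩; exact isProjAlg_gen _

/-- For every positive `k` there are exactly `2^ℵ₀` isomorphism classes of projective algebras
generated by `k` plane sets, and also exactly `2^ℵ₀` isomorphism classes of projective algebras
generated by `k` pairwise distinct plane sets. -/
theorem result (k : ℕ) (hk : 1 ≤ k) :
    Cardinal.mk (Quotient (isoSetoid (Generated k) (generated_isProjAlg k))) =
      Cardinal.continuum ∧
    Cardinal.mk (Quotient (isoSetoid (GeneratedDistinct k) (generatedDistinct_isProjAlg k))) =
      Cardinal.continuum :=
  ⟨card_classes (k := k) (Generated k) (fun _ h => h) _ (fun Z => FZ_mem_generated Z hk),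
    card_classes (k := k) (GeneratedDistinct k) (fun _ h => ⟨h.choose, h.choose_spec.2⟩) _
      (fun Z => FZ_mem_generatedDistinct Z hk)⟩

end Pool.Agent.Results.MP_71be7b_lc.ContinuumManyForEveryK
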